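import Mathlib
import Pool.Agent.Y920.HN.Stm

/-!
# Project HN, job CANTOR: the Cantor set of products of the `t i` (helper909)
-/

set_option autoImplicit false

open MeasureTheory Filter Topology

namespace Pool.Agent.Y909.HN

open Pool.Agent.Y920.HN

/-- the partial products -/
def P {G : Type} [Group G] (t : ℕ → G) (c : ℕ → Bool) : ℕ → G
  | 0 => 1
  | i + 1 => P t c i * (if c i = true then t i else 1)

lemma P_congr {G : Type} [Group G] (t : ℕ → G) (c d : ℕ → Bool) (n : ℕ)
    (h : ∀ i < n, d i = c i) : P t d n = P t c n := by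
  induction n with
  | zero => rfl
  | succ n ih =>
    show P t d n * (if d n = true then t n else 1) = P t c n * (if c n = true then t n else 1)
    rw [ih fun i hi => h i (by omega), h n (by omega)]

theorem t_CANTOR : S_CANTOR := by
  intro G _ _ _ F k t A hk ht hA hAt
  have hik : ∀ i, i ≤ k i := fun i => hk.le_apply
  have hstep : ∀ (c : ℕ → Bool) (i : ℕ), (P t c i)⁻¹ * P t c (i + 1) ∈ F.V (k i) := by
    intro c i
    have h1 : (P t c i)⁻¹ * P t c (i + 1) = if c i = true then t i else 1 := by
      show (P t c i)⁻¹ * (P t c i * (if c i = true then t i else 1)) = _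
      rw [inv_mul_cancel_left]
    rw [h1]
    split_ifs
    · exact ht i
    · exact one_mem _
  have hex : ∀ c : ℕ → Bool, ∃ x : G, ∀ n, (P t c n)⁻¹ * x ∈ F.V n := fun c =>
    F.complete (P t c) fun n => F.anti (hik n) (hstep c n)
  choose y hy using hex
  have hlong : ∀ (c : ℕ → Bool) (i j : ℕ), i ≤ j → (P t c i)⁻¹ * P t c j ∈ F.V (k i) := by
    intro c i j hij
    induction j, hij using Nat.le_induction with
    | base => rw [inv_mul_cancel]; exact one_mem _
    | succ j hij ih =>
      have h1 := mul_mem ih (F.anti (hk.monotone hij) (hstep c j))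
      rwa [mul_assoc, mul_inv_cancel_left] at h1
  have hyk : ∀ (c : ℕ → Bool) (i : ℕ), (P t c i)⁻¹ * y c ∈ F.V (k i) := by
    intro c i
    have h1 := mul_mem (hlong c i (k i) (hik i)) (hy c (k i))
    rwa [mul_assoc, mul_inv_cancel_left] at h1
  have key : ∀ (g : G) (c d : ℕ → Bool) (i : ℕ), (∀ j < i, d j = c j) → c i = false →
      d i = true → g * y c ∈ A i → g * y d ∈ A i → False := by
    intro g c d i hcd hc hd hgc hgd
    have e1 : P t c (i + 1) = P t c i := by
      show P t c i * (if c i = true then t i else 1) = P t c i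
      rw [hc, if_neg (by decide), mul_one]
    have e2 : P t d (i + 1) = P t c i * t i := by
      show P t d i * (if d i = true then t i else 1) = P t c i * t i
      rw [hd, if_pos rfl, P_congr t c d i hcd]
    have h1 := hA i _ hgc _ (inv_mem (hyk c (i + 1)))
    have h2 := hA i _ hgd _ (inv_mem (hyk d (i + 1)))
    rw [mul_inv_rev, inv_inv, mul_assoc, mul_inv_cancel_left, e1] at h1
    rw [mul_inv_rev, inv_inv, mul_assoc, mul_inv_cancel_left, e2, ← mul_assoc] at h2
    exact hAt i _ h1 h2
  refine ⟨y, ?_, ?_⟩
  · rw [continuous_iff_continuousAt]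
    intro c U hU
    have h1 : (fun x : G => y c * x) ⁻¹' U ∈ 𝓝 (1 : G) := by
      have h2 : ContinuousAt (fun x : G => y c * x) 1 := (continuous_const_mul (y c)).continuousAt
      apply h2
      show U ∈ 𝓝 (y c * 1)
      rw [mul_one]
      exact hU
    obtain ⟨n, hn⟩ := F.base _ h1
    have h2 : ∀ᶠ d in 𝓝 c, ∀ i ∈ Set.Iio n, d i = c i := by
      rw [Filter.eventually_all_finite (Set.finite_Iio n)]
      intro i _
      exact (continuous_apply i).continuousAt.eventually
        ((isOpen_discrete {c i}).mem_nhds rfl)
    rw [Filter.mem_map]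
    filter_upwards [h2] with d hd
    have h3 : P t d n = P t c n := P_congr t c d n fun i hi => hd i hi
    have h4 : (y c)⁻¹ * y d ∈ F.V n := by
      have h5 := mul_mem (inv_mem (hy c n)) (hy d n)
      rw [h3, mul_inv_rev, inv_inv, mul_assoc, mul_inv_cancel_left] at h5
      exact h5
    have h5 := hn h4
    rw [Set.mem_preimage, mul_inv_cancel_left] at h5
    exact h5
  · intro g c hc d hd
    by_contra hne
    have h1 : ∃ i, d i ≠ c i := by
      by_contra h2
      push Not at h2
      exact hne (funext fun i => (h2 i).symm)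
    classical
    set i := Nat.find h1 with hi
    have h2 : d i ≠ c i := Nat.find_spec h1
    have h3 : ∀ j < i, d j = c j := fun j hj => not_not.1 (Nat.find_min h1 hj)
    rcases hci : c i with _ | _
    · have hdi : d i = true := by
        rcases h4 : d i with _ | _
        · exact absurd (h4.trans hci.symm) h2
        · rfl
      exact key g c d i h3 hci hdi (hc i) (hd i)
    · have hdi : d i = false := by
        rcases h4 : d i with _ | _
        · rfl
        · exact absurd (h4.trans hci.symm) h2
      exact key g d c i (fun j hj => (h3 j hj).symm) hdi hci (hd i) (hc i)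

end Pool.Agent.Y909.HN
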